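import Pool.Agent.Helper87.PG.Stmts
import Pool.Agent.Helper15.TC.STEP

/-!
# One step: the resolved quotient by a central involution
-/

set_option autoImplicit false

namespace Pool.Agent.Helper87.PG

open MvPolynomial Pool.Agent.Helper48.VMRT Pool.Agent.Helper87.VM Pool.Agent.Helper87.TC

namespace S52

lemma center (m : ℕ) (G : Type) [Group G] (h : Nat.card G = 2 ^ (m + 1)) :
    ∃ c : G, c ≠ 1 ∧ c * c = 1 ∧ ∀ g : G, g * c = c * g := by
  have : Finite G := Nat.finite_of_card_ne_zero (by rw [h]; positivity)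
  have : Nontrivial G := by
    rw [← Finite.one_lt_card_iff_nontrivial, h]
    exact Nat.one_lt_two_pow (by omega)
  have : Fact (Nat.Prime 2) := ⟨Nat.prime_two⟩
  have hp : IsPGroup 2 G := IsPGroup.of_card h
  have := hp.center_nontrivial
  have hc : IsPGroup 2 (Subgroup.center G) := hp.to_subgroup _
  obtain ⟨k, hk⟩ := IsPGroup.iff_card.1 hc
  have hk0 : k ≠ 0 := by
    rintro rfl
    have h1 : 1 < Nat.card (Subgroup.center G) := Finite.one_lt_card
    rw [hk] at h1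
    omega
  obtain ⟨x, hx⟩ := exists_prime_orderOf_dvd_card' (G := Subgroup.center G) 2
    (by rw [hk]; exact dvd_pow_self 2 hk0)
  refine ⟨x, ?_, ?_, ?_⟩
  · intro h1
    have h2 : x = 1 := Subtype.ext h1
    rw [h2, orderOf_one] at hx
    omega
  · have h2 : x ^ 2 = 1 := by
      rw [← hx]
      exact pow_orderOf_eq_one x
    have h3 := congrArg Subtype.val h2
    rw [sq] at h3
    exact h3
  · intro g
    exact Subgroup.mem_center_iff.1 x.2 g

lemma zp {G : Type} [Group G] (c : G) (hc : c * c = 1) (x : G) (hx : x ∈ Subgroup.zpowers c) :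
    x = 1 ∨ x = c := by
  obtain ⟨k, rfl⟩ := Subgroup.mem_zpowers_iff.1 hx
  have h2 : c ^ (2 : ℤ) = 1 := by
    rw [zpow_ofNat, sq, hc]
  rcases Int.even_or_odd k with ⟨j, hj⟩ | ⟨j, hj⟩
  · left
    rw [hj, ← two_mul, zpow_mul, h2, one_zpow]
  · right
    rw [hj, zpow_add, zpow_mul, h2, one_zpow, one_mul, zpow_one]

lemma nrm {G : Type} [Group G] (c : G) (hcc : ∀ g : G, g * c = c * g) :
    (Subgroup.zpowers c).Normal := by
  refine ⟨fun x hx g => ?_⟩
  obtain ⟨k, rfl⟩ := Subgroup.mem_zpowers_iff.1 hx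
  have h1 : Commute g c := hcc g
  have h2 := h1.zpow_right k
  have h3 : g * c ^ k * g⁻¹ = c ^ k := by
    rw [h2.eq, mul_inv_cancel_right]
  rw [h3]
  exact Subgroup.mem_zpowers_iff.2 ⟨k, rfl⟩

end S52

theorem st_STEP (hADAPT : TC.ST_ADAPT) (hTRANS : TC.ST_TRANS) (hSEPP : TC.ST_SEPP)
    (hPTS : TC.ST_PTS) (hTANI : TC.ST_TANI) (hPSIPM : TC.ST_PSIPM) (hCLIFT : TC.ST_CLIFT)
    (hEQG : ST_EQG) : ST_STEP := by
  intro m κ G _ _ n Y D σ hcard hI
  obtain ⟨z, hz1, hzz, hzc⟩ := S52.center m G hcard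
  obtain ⟨a1, ha1, hσ1⟩ := hI.one
  obtain ⟨az, haz, hσz⟩ := hI.mul z z
  obtain ⟨e, he⟩ : ∃ e, e = az⁻¹ * a1 := ⟨_, rfl⟩
  have he0 : e ≠ 0 := by
    rw [he]
    exact mul_ne_zero (inv_ne_zero haz) ha1
  have hzzv : ∀ y, σ z (σ z y) = e • y := by
    intro y
    have h1 := LinearMap.congr_fun hσz y
    rw [hzz, hσ1] at h1
    have h2 : a1 • y = az • σ z (σ z y) := h1
    have h3 := congrArg (fun v => az⁻¹ • v) h2
    simp only [smul_smul] at h3
    rw [inv_mul_cancel₀ haz, one_smul] at h3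
    rw [he, ← h3]
  obtain ⟨κα, κβ, _, _, φ, γα, γβ, δ, hδ, hδε, hφγ, hα, hβ, hγK⟩ :=
    hADAPT κ (σ z) 1 e he0 (by
      intro y
      rw [mul_one, pow_two]
      exact hzzv y)
  rw [pow_one] at hγK
  obtain ⟨T, hT1, hT2, hT3, hT4, hT5, hT6⟩ := hEQG κα κβ
  -- scalars
  have hmulv : ∀ g h : G, ∃ a : ℂ, a ≠ 0 ∧ ∀ y, σ (g * h) y = a • σ g (σ h y) := by
    intro g h
    obtain ⟨a, ha, h1⟩ := hI.mul g h
    exact ⟨a, ha, fun y => by rw [h1]; rfl⟩
  have hinv : ∀ g : G, ∃ a : ℂ, a ≠ 0 ∧ ∀ y, σ g⁻¹ (σ g y) = a • y := by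
    intro g
    obtain ⟨a, ha, h1⟩ := hmulv g⁻¹ g
    refine ⟨a⁻¹ * a1, mul_ne_zero (inv_ne_zero ha) ha1, fun y => ?_⟩
    have h2 := h1 y
    rw [inv_mul_cancel, hσ1] at h2
    have h3 : a1 • y = a • σ g⁻¹ (σ g y) := h2
    rw [mul_smul, h3, smul_smul, inv_mul_cancel₀ ha, one_smul]
  -- the linear maps in adapted coordinates
  obtain ⟨τ, hτ⟩ : ∃ τ : G → ((κα ⊕ κβ → ℂ) →ₗ[ℂ] (κα ⊕ κβ → ℂ)),
      ∀ g y, τ g y = φ.symm (σ g (φ y)) :=
    ⟨fun g => (φ.symm : (κ → ℂ) →ₗ[ℂ] (κα ⊕ κβ → ℂ)) ∘ₗ σ g ∘ₗ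
      (φ : (κα ⊕ κβ → ℂ) →ₗ[ℂ] (κ → ℂ)), fun g y => rfl⟩
  have hφτ : ∀ g y, φ (τ g y) = σ g (φ y) := by
    intro g y
    rw [hτ, LinearEquiv.apply_symm_apply]
  have hτz : ∀ y, τ z y = δ • sg y := by
    intro y
    rw [hτ, hγK, map_smul, LinearEquiv.symm_apply_apply]
  have hMB : ∀ g, MB (τ g) := by
    intro g
    obtain ⟨b1, hb1, hv1⟩ := hmulv g z
    obtain ⟨b2, hb2, hv2⟩ := hmulv z g
    have hb : ∀ y, τ g (sg y) = (b1⁻¹ * b2) • sg (τ g y) := by
      intro y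
      have h1 : b1 • σ g (σ z (φ y)) = b2 • σ z (σ g (φ y)) := by
        rw [← hv1, ← hv2, hzc]
      have h2 : σ g (σ z (φ y)) = (b1⁻¹ * b2) • σ z (σ g (φ y)) := by
        rw [mul_smul, ← h1, smul_smul, inv_mul_cancel₀ hb1, one_smul]
      rw [hγK, map_smul, ← hφτ g y, hγK] at h2
      have h3 := congrArg φ.symm h2
      rw [map_smul, map_smul, map_smul, ← hτ, LinearEquiv.symm_apply_apply, smul_comm] at h3
      exact smul_right_injective _ hδ h3
    have hsg : ∀ y : κα ⊕ κβ → ℂ, sg (sg y) = y := by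
      intro y
      funext i
      cases i with
      | inl i => rfl
      | inr i =>
        show -(-(y (Sum.inr i))) = y (Sum.inr i)
        rw [neg_neg]
    have hsgs : ∀ (a : ℂ) (y : κα ⊕ κβ → ℂ), sg (a • y) = a • sg y := by
      intro a y
      funext i
      cases i with
      | inl i => rfl
      | inr i =>
        show -(a * y (Sum.inr i)) = a * -(y (Sum.inr i))
        ring
    by_cases h1 : (b1⁻¹ * b2) = 1
    · left
      intro y
      rw [hb, h1, one_smul]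
    by_cases h2 : (b1⁻¹ * b2) = -1
    · right
      intro y
      rw [hb, h2, neg_one_smul]
    have h0 : ∀ y, τ g y = 0 := by
      intro y
      have h3 := hb (sg y)
      rw [hsg, hb, hsgs, hsg, smul_smul] at h3
      have h4 : (1 - (b1⁻¹ * b2) * (b1⁻¹ * b2)) • τ g y = 0 := by
        rw [sub_smul, one_smul, ← h3, sub_self]
      rcases smul_eq_zero.1 h4 with h5 | h5
      · exfalso
        have h6 : ((b1⁻¹ * b2) - 1) * ((b1⁻¹ * b2) + 1) = 0 := by linear_combination -h5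
        rcases mul_eq_zero.1 h6 with h7 | h7
        · exact h1 (sub_eq_zero.1 h7)
        · exact h2 (eq_neg_of_add_eq_zero_left h7)
      · exact h5
    left
    intro y
    rw [h0, h0]
    funext i
    cases i with
    | inl i => rfl
    | inr i =>
      show (0 : ℂ) = -(0 : ℂ)
      rw [neg_zero]
  -- the quotient group
  have hnorm : (Subgroup.zpowers z).Normal := S52.nrm z hzc
  have : Finite G := Nat.finite_of_card_ne_zero (by rw [hcard]; positivity)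
  have hzord : orderOf z = 2 := orderOf_eq_prime (by rw [sq, hzz]) hz1
  have hcard' : Nat.card (G ⧸ Subgroup.zpowers z) = 2 ^ m := by
    have h1 := Subgroup.card_eq_card_quotient_mul_card_subgroup (Subgroup.zpowers z)
    rw [Nat.card_zpowers, hzord, hcard, pow_succ] at h1
    omega
  obtain ⟨out, hout⟩ : ∃ out : G ⧸ Subgroup.zpowers z → G,
      ∀ x, QuotientGroup.mk' (Subgroup.zpowers z) (out x) = x :=
    ⟨fun x => x.out, fun x => QuotientGroup.out_eq' x⟩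
  have hout2 : ∀ g : G, out (QuotientGroup.mk' (Subgroup.zpowers z) g) = g ∨
      out (QuotientGroup.mk' (Subgroup.zpowers z) g) = g * z := by
    intro g
    have h1 := hout (QuotientGroup.mk' (Subgroup.zpowers z) g)
    have h2 := QuotientGroup.eq.1 h1.symm
    rcases S52.zp z hzz _ h2 with h3 | h3
    · left
      exact (inv_mul_eq_one.1 h3).symm
    · right
      exact inv_mul_eq_iff_eq_mul.1 h3
  -- the induced maps
  obtain ⟨σ', hσ'⟩ : ∃ σ' : (G ⧸ Subgroup.zpowers z) → ((KK κα κβ → ℂ) →ₗ[ℂ] (KK κα κβ → ℂ)),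
      ∀ x, σ' x = T (τ (out x)) := ⟨fun x => T (τ (out x)), fun x => rfl⟩
  have hTmul : ∀ g h : G, ∃ a : ℂ, a ≠ 0 ∧ T (τ (g * h)) = a • (T (τ g) ∘ₗ T (τ h)) := by
    intro g h
    obtain ⟨a, ha, h1⟩ := hmulv g h
    refine ⟨a ^ 4, pow_ne_zero 4 ha, ?_⟩
    have h2 : τ (g * h) = a • (τ g ∘ₗ τ h) := by
      refine LinearMap.ext fun y => ?_
      show τ (g * h) y = a • τ g (τ h y)
      rw [hτ, h1, map_smul, hτ g, hφτ]
    rw [h2, hT3, hT2 _ _ (hMB g) (hMB h)]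
  have hTz : T (τ z) = (-δ ^ 4) • LinearMap.id := by
    have h1 : τ z = δ • (δ⁻¹ • τ z) := by
      rw [smul_smul, mul_inv_cancel₀ hδ, one_smul]
    rw [h1, hT3, hT5 (δ⁻¹ • τ z) (by
      intro y
      show δ⁻¹ • τ z y = sg y
      rw [hτz, smul_smul, inv_mul_cancel₀ hδ, one_smul]), smul_neg]
    exact (neg_smul _ _).symm
  have hA : ∀ g : G, ∃ ε : ℂ, ε ≠ 0 ∧
      T (τ g) = ε • σ' (QuotientGroup.mk' (Subgroup.zpowers z) g) := by
    intro g
    rw [hσ']
    rcases hout2 g with h1 | h1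
    · exact ⟨1, one_ne_zero, by rw [h1, one_smul]⟩
    · obtain ⟨a, ha, h2⟩ := hTmul g z
      have h4 : a * (-δ ^ 4) ≠ 0 := mul_ne_zero ha (neg_ne_zero.2 (pow_ne_zero 4 hδ))
      refine ⟨(a * (-δ ^ 4))⁻¹, inv_ne_zero h4, ?_⟩
      rw [h1, h2, hTz, LinearMap.comp_smul, LinearMap.comp_id, smul_smul, smul_smul,
        mul_assoc, inv_mul_cancel₀ h4, one_smul]
  have hone' : ∃ a : ℂ, a ≠ 0 ∧ σ' 1 = a • LinearMap.id := by
    obtain ⟨ε, hε, h1⟩ := hA 1
    rw [map_one] at h1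
    have h2 : τ 1 = a1 • LinearMap.id := by
      refine LinearMap.ext fun y => ?_
      rw [hτ, hσ1]
      show φ.symm (a1 • φ y) = a1 • y
      rw [map_smul, LinearEquiv.symm_apply_apply]
    rw [h2, hT3, hT4] at h1
    refine ⟨ε⁻¹ * a1 ^ 4, mul_ne_zero (inv_ne_zero hε) (pow_ne_zero 4 ha1), ?_⟩
    rw [mul_smul, h1, smul_smul, inv_mul_cancel₀ hε, one_smul]
  have hmul' : ∀ x y, ∃ a : ℂ, a ≠ 0 ∧ σ' (x * y) = a • (σ' x ∘ₗ σ' y) := by
    intro x y
    obtain ⟨a, ha, h1⟩ := hTmul (out x) (out y)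
    obtain ⟨ε, hε, h2⟩ := hA (out x * out y)
    rw [map_mul, hout, hout] at h2
    refine ⟨ε⁻¹ * a, mul_ne_zero (inv_ne_zero hε) ha, ?_⟩
    rw [hσ' x, hσ' y, mul_smul, ← h1, h2, smul_smul, inv_mul_cancel₀ hε, one_smul]
  have hDinv : ∀ (g : G) (y : κ → ℂ), σ g y ∈ D → y ∈ D := by
    intro g y hy
    obtain ⟨a, ha, h1⟩ := hinv g
    have h2 := hI.dact g⁻¹ _ hy
    rw [h1] at h2
    have h4 := hI.dcone a⁻¹ _ h2
    rw [smul_smul, inv_mul_cancel₀ ha, one_smul] at h4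
    exact h4
  -- adapted cones
  have hAd : ∀ S : Set (κ → ℂ), ZClosed S → (∀ a : ℂ, ∀ y ∈ S, a • y ∈ S) →
      (∀ g : G, ∀ y ∈ S, σ g y ∈ S) → AdCone (φ ⁻¹' S) := by
    intro S h1 h2 h3
    refine ⟨(hTRANS (κα ⊕ κβ) κ φ S).1 h1, ?_, ?_⟩
    · intro a y hy
      show φ (a • y) ∈ S
      rw [map_smul]
      exact h2 a _ hy
    · intro y hy
      show φ (sg y) ∈ S
      have h4 := h2 δ⁻¹ _ (h3 z _ hy)
      rw [hγK, smul_smul, inv_mul_cancel₀ hδ, one_smul] at h4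
      exact h4
  have hAY := hAd Y hI.pm.closed hI.pm.cone hI.act
  have hAD := hAd D hI.dcl hI.dcone hI.dact
  have hpq : ∀ y ∈ Y, y ∉ D → pl (φ.symm y) ≠ 0 ∧ qr (φ.symm y) ≠ 0 := by
    intro y hy hyD
    have h1 := hI.free y hy hyD z hz1
    have h2 := hγK (φ.symm y)
    rw [LinearEquiv.apply_symm_apply] at h2
    constructor
    · intro hp
      apply h1 (-δ)
      have h3 : sg (φ.symm y) = -(φ.symm y) := by
        conv_rhs => rw [← elim_pl_qr (φ.symm y)]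
        unfold sg
        rw [hp]
        funext i
        cases i with
        | inl i => simp
        | inr i => simp
      rw [h2, h3, map_neg, LinearEquiv.apply_symm_apply, smul_neg, neg_smul]
    · intro hq
      apply h1 δ
      have h3 : sg (φ.symm y) = φ.symm y := by
        conv_rhs => rw [← elim_pl_qr (φ.symm y)]
        unfold sg
        rw [hq, neg_zero]
      rw [h2, h3, LinearEquiv.apply_symm_apply]
  -- the polynomial map
  let P : KK κα κβ → MvPolynomial κ ℂ := fun i =>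
    pull (φ.symm : (κ → ℂ) →ₗ[ℂ] (κα ⊕ κβ → ℂ)) (Psi i)
  have hevP : ∀ y, ev P y = ev Psi (φ.symm y) := by
    intro y
    funext i
    exact eval_pull _ _ _
  have hdevP : ∀ y v, dev P y v = dev Psi (φ.symm y) (φ.symm v) := by
    intro y v
    funext i
    exact dpol_pull _ _ _ _
  have hequi : ∀ g y, ev P (σ g y) = T (τ g) (ev P y) := by
    intro g y
    rw [hevP, hevP, hT1 _ (hMB g), hτ, LinearEquiv.apply_symm_apply]
  -- stability of the closures of images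
  have hstab : ∀ S : Set (κ → ℂ), (∀ g : G, ∀ y ∈ S, σ g y ∈ S) → ∀ g : G,
      ∀ w ∈ Cl (ev Psi '' (φ ⁻¹' S)), T (τ g) w ∈ Cl (ev Psi '' (φ ⁻¹' S)) := by
    intro S hS g w hw
    refine Cl_map_linear (T (τ g)) ?_ hw
    rintro x ⟨y, hy, rfl⟩
    refine ⟨τ g y, ?_, ?_⟩
    · show φ (τ g y) ∈ S
      rw [hφτ]
      exact hS g _ hy
    · rw [hT1 _ (hMB g)]
  have himg : ∀ S : Set (κ → ℂ), ∀ y ∈ S, ev P y ∈ Cl (ev Psi '' (φ ⁻¹' S)) := by
    intro S y hy
    apply subset_Cl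
    refine ⟨φ.symm y, ?_, (hevP y).symm⟩
    show φ (φ.symm y) ∈ S
    rw [LinearEquiv.apply_symm_apply]
    exact hy
  have hmem : ∀ S : Set (κ → ℂ), AdCone (φ ⁻¹' S) → ∀ y ∈ Y, y ∉ D →
      ev P y ∈ Cl (ev Psi '' (φ ⁻¹' S)) → y ∈ S := by
    intro S hS y hy hyD h1
    obtain ⟨h2, h3⟩ := hpq y hy hyD
    rw [hevP] at h1
    have h4 := (hPTS κα κβ (φ ⁻¹' S) hS).2 (φ.symm y) h2 h3 h1
    have h5 : φ (φ.symm y) ∈ S := h4
    rw [LinearEquiv.apply_symm_apply] at h5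
    exact h5
  have hoff : ∀ y ∈ Y, y ∉ D → ev P y ∉ Cl (ev Psi '' (φ ⁻¹' D)) ∪ Bd κα κβ := by
    intro y hy hyD h1
    rcases h1 with h1 | h1
    · exact hyD (hmem D hAD y hy hyD h1)
    · obtain ⟨h2, h3⟩ := hpq y hy hyD
      rw [hevP] at h1
      exact step_not_Bd h2 h3 h1
  have hsurj : ∀ x ∈ Cl (ev Psi '' (φ ⁻¹' Y)), x ∉ Cl (ev Psi '' (φ ⁻¹' D)) ∪ Bd κα κβ →
      ∃ y ∈ Y, y ∉ D ∧ x = ev P y := by
    intro x hx hxD
    obtain ⟨y1, hy1, _, _, rfl⟩ := (hPTS κα κβ (φ ⁻¹' Y) hAY).1 x hx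
      (fun h => hxD (Or.inr h))
    refine ⟨φ y1, hy1, fun h => hxD (Or.inl (subset_Cl _ ⟨y1, h, rfl⟩)), ?_⟩
    rw [hevP, LinearEquiv.symm_apply_apply]
  have hsep : ∀ y ∈ Y, y ∉ D → ∀ y' ∈ Y, y' ∉ D → ∀ a : ℂ, ev P y' = a • ev P y →
      ∃ c : ℂ, y' = c • y ∨ y' = c • σ z y := by
    intro y hy hyD y' hy' hyD' a h1
    obtain ⟨h2, h3⟩ := hpq y hy hyD
    obtain ⟨h2', h3'⟩ := hpq y' hy' hyD'
    rw [hevP, hevP] at h1
    obtain ⟨c, hc⟩ := (hSEPP κα κβ (φ.symm y) h2 h3).2.1 (φ.symm y') a h2' h3' h1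
    rcases hc with hc | hc
    · refine ⟨c, Or.inl ?_⟩
      have := congrArg φ hc
      rw [LinearEquiv.apply_symm_apply, map_smul, LinearEquiv.apply_symm_apply] at this
      exact this
    · refine ⟨c * δ⁻¹, Or.inr ?_⟩
      have h4 := congrArg φ hc
      rw [LinearEquiv.apply_symm_apply, map_smul] at h4
      have h5 := hγK (φ.symm y)
      rw [LinearEquiv.apply_symm_apply] at h5
      rw [h4, h5, smul_smul, mul_assoc, inv_mul_cancel₀ hδ, mul_one]
  have hpm : PM n (Cl (ev Psi '' (φ ⁻¹' Y))) := by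
    refine hPSIPM κα κβ n (φ ⁻¹' Y) ((hTRANS (κα ⊕ κβ) κ φ Y).2.1 n hI.pm) hAY ?_
    obtain ⟨y, hy, hyD⟩ := hI.exi
    refine ⟨φ.symm y, ?_, hpq y hy hyD⟩
    show φ (φ.symm y) ∈ Y
    rw [LinearEquiv.apply_symm_apply]
    exact hy
  have hdcl : ZClosed (Cl (ev Psi '' (φ ⁻¹' D)) ∪ Bd κα κβ) :=
    zclosed_union (zclosed_Cl _) step_Bd_closed
  have hdcone : ∀ a : ℂ, ∀ x ∈ Cl (ev Psi '' (φ ⁻¹' D)) ∪ Bd κα κβ,
      a • x ∈ Cl (ev Psi '' (φ ⁻¹' D)) ∪ Bd κα κβ := by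
    intro a x hx
    rcases hx with hx | hx
    · exact Or.inl (Cl_cone (step_cone hAD.cone) a x hx)
    · exact Or.inr (step_Bd_cone a x hx)
  refine ⟨KK κα κβ, G ⧸ Subgroup.zpowers z, inferInstance, inferInstance,
    QuotientGroup.mk' (Subgroup.zpowers z), P, Cl (ev Psi '' (φ ⁻¹' Y)),
    Cl (ev Psi '' (φ ⁻¹' D)) ∪ Bd κα κβ, σ', hcard', QuotientGroup.mk'_surjective _, ?_, ?_⟩
  · refine ⟨fun i => homE_pull _ (step_homE i), hpm, fun y hy => himg Y y hy, hdcl, hdcone,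
      fun y hy => Or.inl (himg D y hy), hoff, hsurj, ?_, ?_, ?_, ?_, ?_, ?_⟩
    · intro y hy hyD y' hy' hyD' a h1
      obtain ⟨c, hc | hc⟩ := hsep y hy hyD y' hy' hyD' a h1
      · refine ⟨1, c * a1⁻¹, ?_⟩
        rw [hσ1, hc]
        show c • y = (c * a1⁻¹) • a1 • y
        rw [smul_smul, mul_assoc, inv_mul_cancel₀ ha1, mul_one]
      · exact ⟨z, c, hc⟩
    · intro g
      obtain ⟨ε, hε, h1⟩ := hA g
      refine ⟨ε, hε, fun y => ?_⟩
      rw [hequi, h1]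
      rfl
    · intro y hy hyD v hv
      obtain ⟨h2, h3⟩ := hpq y hy hyD
      rw [hdevP] at hv
      have h4 := (hSEPP κα κβ (φ.symm y) h2 h3).2.2 _ hv
      have h5 := congrArg φ h4
      rw [LinearEquiv.apply_symm_apply, map_zero] at h5
      exact h5
    · intro y hy hyD v hv
      obtain ⟨h2, h3⟩ := hpq y hy hyD
      rw [hevP] at hv
      have hy1 : φ.symm y ∈ φ ⁻¹' Y := by
        show φ (φ.symm y) ∈ Y
        rw [LinearEquiv.apply_symm_apply]
        exact hy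
      obtain ⟨u, hu, rfl⟩ := (hTANI κα κβ (φ ⁻¹' Y) hAY (φ.symm y) hy1 h2 h3 v).1 hv
      refine ⟨φ u, ?_, ?_⟩
      · have h4 := ((hTRANS (κα ⊕ κβ) κ φ Y).2.2.1 (φ.symm y) u).1 hu
        rw [LinearEquiv.apply_symm_apply] at h4
        exact h4
      · rw [hdevP, LinearEquiv.symm_apply_apply]
    · intro e' c hc hcY hcD
      obtain ⟨e'', y, he', hy, hyY, hyc⟩ := hCLIFT κα κβ (φ ⁻¹' Y) hAY e' c hc hcY
        (fun s t hst h => hcD s t hst (Or.inr h))
      obtain ⟨c', hc', hcφ⟩ := (hTRANS (κα ⊕ κβ) κ φ Y).2.2.2 e'' y hy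
      refine ⟨e'', c', he', hc', ?_, ?_, ?_⟩
      · intro s t
        rw [hcφ]
        exact hyY s t
      · intro s t hst h
        rw [hcφ] at h
        apply hcD s t hst
        left
        rw [hyc]
        exact subset_Cl _ ⟨_, h, rfl⟩
      · intro s t
        rw [hyc, hcφ, hevP, LinearEquiv.symm_apply_apply]
    · intro S h1 h2 h3 h4
      have hAS := hAd S h1 h2 h4
      refine ⟨Cl (ev Psi '' (φ ⁻¹' S)), zclosed_Cl _, Cl_cone (step_cone hAS.cone),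
        Cl_mono (Set.image_mono (Set.preimage_mono h3)), ?_, ?_⟩
      · intro x w hw
        rw [hσ']
        exact hstab S h4 _ w hw
      · intro y hy hyD
        exact ⟨hmem S hAS y hy hyD, himg S y⟩
  · refine ⟨hpm, hone', hmul', ?_, hdcl, hdcone, ?_, ?_, ?_⟩
    · intro x w hw
      rw [hσ']
      exact hstab Y hI.act _ w hw
    · intro x w hw
      rw [hσ']
      rcases hw with hw | hw
      · exact Or.inl (hstab D hI.dact _ w hw)
      · exact Or.inr (hT6 _ (hMB _) w hw)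
    · intro x hx hxD g' hg' c hcon
      obtain ⟨y, hy, hyD, rfl⟩ := hsurj x hx hxD
      rw [hσ', ← hequi] at hcon
      have hy1 : σ (out g') y ∈ Y := hI.act _ y hy
      have hy1D : σ (out g') y ∉ D := fun h => hyD (hDinv _ y h)
      obtain ⟨c', hc' | hc'⟩ := hsep y hy hyD _ hy1 hy1D c hcon
      · refine hI.free y hy hyD (out g') ?_ c' hc'
        intro h1
        apply hg'
        rw [← hout g', h1, map_one]
      · obtain ⟨a, ha, h1⟩ := hmulv z (out g')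
        refine hI.free y hy hyD (z * out g') ?_ (a * c' * e) ?_
        · intro h2
          apply hg'
          have h3 : out g' = z := by
            have h4 : out g' = z⁻¹ := (inv_eq_of_mul_eq_one_right h2).symm
            rw [h4]
            exact inv_eq_of_mul_eq_one_right hzz
          have h5 : QuotientGroup.mk' (Subgroup.zpowers z) z = 1 :=
            (QuotientGroup.eq_one_iff z).2 (Subgroup.mem_zpowers z)
          rw [← hout g', h3, h5]
        · rw [h1, hc', map_smul, hzzv, smul_smul, smul_smul]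
    · obtain ⟨y, hy, hyD⟩ := hI.exi
      exact ⟨ev P y, himg Y y hy, hoff y hy hyD⟩

end Pool.Agent.Helper87.PG
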